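import Pool.Agent.Helper32.PD.Defs
import Pool.Agent.Helper32.Piv.Pivot3
import Pool.Agent.Helper35.PM.Defs3
import Pool.Agent.Helper68.Piv.VC
import Pool.Agent.Helper68.Piv.Reg3
import Pool.Agent.Helper48.PM.PMofPG
import Pool.Agent.Helper58.PD.Bip

/-!
# The dense case from the combinatorial core (PD-15b)
-/

set_option autoImplicit false

namespace Pool.Agent.Helper64.PD

open Finset Pool.Agent.Helper32.PD Pool.Agent.Helper32.Piv Pool.Agent.Helper68.Piv
open scoped Classical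

variable {V : Type}

/-- a subdivision inside of `W` depends on the graph on `W` only -/
theorem subD_transfer {F F' : SimpleGraph V} {ι₀ ι₁ ε : Type} {a : ε → ι₀} {b : ε → ι₁} {q g : ℕ}
    {f₀ : ι₀ → V} {f₁ : ι₁ → V} {p : ε → List V} (h : SubD F a b q g f₀ f₁ p) (W : Finset V)
    (h₀ : ∀ i, f₀ i ∈ W) (h₁ : ∀ i, f₁ i ∈ W) (hp : ∀ e, ∀ v ∈ p e, v ∈ W)
    (hF : ∀ x ∈ W, ∀ y ∈ W, (F'.Adj x y ↔ F.Adj x y)) : SubD F' a b q g f₀ f₁ p where
  inj₀ := h.inj₀
  inj₁ := h.inj₁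
  ne := h.ne
  indep₀ := fun i j => by rw [hF _ (h₀ i) _ (h₀ j)]; exact h.indep₀ i j
  indep₁ := fun i j => by rw [hF _ (h₁ i) _ (h₁ j)]; exact h.indep₁ i j
  indep := fun i j => by rw [hF _ (h₀ i) _ (h₁ j)]; exact h.indep i j
  path := fun e => by
    obtain ⟨h1, h2⟩ := h.path e
    have hmem : ∀ v ∈ f₀ (a e) :: (p e ++ [f₁ (b e)]), v ∈ W := by
      intro v hv
      simp only [List.mem_cons, List.mem_append, List.not_mem_nil, or_false] at hv
      rcases hv with rfl | hv | rfl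
      · exact h₀ _
      · exact hp e v hv
      · exact h₁ _
    refine ⟨h1, fun i j hi hj => ?_⟩
    rw [hF _ (hmem _ (List.getElem_mem hi)) _ (hmem _ (List.getElem_mem hj))]
    exact h2 i j hi hj
  len := h.len
  far₀ := fun e i hi x hx y hy => by
    rw [List.mem_singleton] at hx
    obtain ⟨h1, h2⟩ := h.far₀ e i hi x (List.mem_singleton.2 hx) y hy
    refine ⟨h1, ?_⟩
    rw [hF x (by rw [hx]; exact h₀ i) y (hp e y hy)]
    exact h2
  far₁ := fun e i hi x hx y hy => by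
    rw [List.mem_singleton] at hx
    obtain ⟨h1, h2⟩ := h.far₁ e i hi x (List.mem_singleton.2 hx) y hy
    refine ⟨h1, ?_⟩
    rw [hF x (by rw [hx]; exact h₁ i) y (hp e y hy)]
    exact h2
  anti := fun e e' he x hx y hy => by
    obtain ⟨h1, h2⟩ := h.anti e e' he x hx y hy
    refine ⟨h1, ?_⟩
    rw [hF x (hp e x hx) y (hp e' y hy)]
    exact h2

/-- the vertex set of the pair `A, B` -/
abbrev Sub (A B : Finset V) : Type := {x : V // x ∈ A ∪ B}

/-- the side of a vertex of the pair -/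
noncomputable def sd (A B : Finset V) (x : Sub A B) : Bool := decide (x.1 ∈ A)

theorem sd_true {A B : Finset V} {x : Sub A B} : sd A B x = true ↔ x.1 ∈ A := by
  unfold sd
  simp

theorem sd_false {A B : Finset V} (hAB : Disjoint A B) {x : Sub A B} :
    sd A B x = false ↔ x.1 ∈ B := by
  unfold sd
  rw [decide_eq_false_iff_not]
  constructor
  · intro h
    rcases mem_union.1 x.2 with h1 | h1
    · exact absurd h1 h
    · exact h1
  · intro h h'
    exact disjoint_left.1 hAB h' h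

/-- a subset of the pair, as a set of vertices of the host -/
noncomputable def up (A B : Finset V) (S : Finset (Sub A B)) : Finset V :=
  S.map (Function.Embedding.subtype _)

theorem mem_up {A B : Finset V} {S : Finset (Sub A B)} {x : V} :
    x ∈ up A B S ↔ ∃ h : x ∈ A ∪ B, (⟨x, h⟩ : Sub A B) ∈ S := by
  unfold up
  simp

theorem card_up {A B : Finset V} (S : Finset (Sub A B)) : (up A B S).card = S.card := by
  unfold up
  rw [card_map]

theorem card_side {A B : Finset V} (hAB : Disjoint A B) (b : Bool) :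
    (univ.filter fun v : Sub A B => sd A B v = b).card = if b then A.card else B.card := by
  rw [← card_up]
  cases b
  · rw [if_neg (by simp)]
    congr 1
    ext x
    rw [mem_up]
    constructor
    · rintro ⟨h, h1⟩
      exact (sd_false hAB).1 (mem_filter.1 h1).2
    · intro h
      exact ⟨mem_union_right _ h, mem_filter.2 ⟨mem_univ _, (sd_false hAB).2 h⟩⟩
  · rw [if_pos rfl]
    congr 1
    ext x
    rw [mem_up]
    constructor
    · rintro ⟨h, h1⟩
      exact sd_true.1 (mem_filter.1 h1).2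
    · intro h
      exact ⟨mem_union_left _ h, mem_filter.2 ⟨mem_univ _, sd_true.2 h⟩⟩

/-- the host on a pair of disjoint sets of the same size -/
theorem host_of (F : SimpleGraph V) (A B : Finset V) (hAB : Disjoint A B)
    (hc : A.card = B.card) (δ c : ℝ)
    (hA : ∀ x ∈ A ∪ B, ((A.filter fun y => F.Adj x y).card : ℝ) ≤ δ * A.card)
    (hB : ∀ x ∈ A ∪ B, ((B.filter fun y => F.Adj x y).card : ℝ) ≤ δ * A.card)
    (hd : ∀ X ⊆ A, ∀ Y ⊆ B, c * A.card ≤ X.card → c * A.card ≤ Y.card →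
      ∃ x ∈ X, ∃ y ∈ Y, F.Adj x y) :
    Host (F.comap (Subtype.val : Sub A B → V)) (sd A B) A.card δ c where
  card := fun b => by
    rw [card_side hAB]
    cases b <;> simp [hc]
  deg := fun v b => by
    have key : ∀ C : Finset V, (∀ w : Sub A B, sd A B w = b → w.1 ∈ C) →
        cnt (sd A B) b (univ.filter fun w => (F.comap (Subtype.val : Sub A B → V)).Adj v w) ≤
          ((C.filter fun y => F.Adj v.1 y).card : ℝ) := by
      intro C hC
      unfold cnt
      rw [Nat.cast_le, ← card_up]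
      refine card_le_card fun x hx => ?_
      obtain ⟨h, h1⟩ := mem_up.1 hx
      obtain ⟨h2, h3⟩ := mem_filter.1 h1
      exact mem_filter.2 ⟨hC _ h3, (mem_filter.1 h2).2⟩
    cases b
    · exact (key B fun w hw => (sd_false hAB).1 hw).trans (hB v.1 v.2)
    · exact (key A fun w hw => sd_true.1 hw).trans (hA v.1 v.2)
  dense := fun X Y hX hY hXc hYc => by
    obtain ⟨x, hx, y, hy, hxy⟩ := hd (up A B X) (fun x hx => by
      obtain ⟨h, h1⟩ := mem_up.1 hx
      exact sd_true.1 (hX _ h1)) (up A B Y) (fun x hx => by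
      obtain ⟨h, h1⟩ := mem_up.1 hx
      exact (sd_false hAB).1 (hY _ h1)) (by rw [card_up]; exact hXc) (by rw [card_up]; exact hYc)
    obtain ⟨h, h1⟩ := mem_up.1 hx
    obtain ⟨h', h1'⟩ := mem_up.1 hy
    exact ⟨_, h1, _, h1', hxy⟩

theorem cnt_union_le {U : Type} (side : U → Bool) (b : Bool) (S T : Finset U) :
    cnt side b (S ∪ T) ≤ cnt side b S + cnt side b T := by
  unfold cnt
  rw [filter_union]
  exact_mod_cast card_union_le _ _

theorem cnt_univ {U : Type} [Fintype U] {F : SimpleGraph U} {side : U → Bool} {n : ℕ} {δ c : ℝ}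
    (H : Host F side n δ c) (b : Bool) : cnt side b univ = n := by
  unfold cnt
  rw [H.card b]

/-- a vertex of a given side outside of a small set -/
theorem exists_off {U : Type} [Fintype U] {F : SimpleGraph U} {side : U → Bool} {n : ℕ}
    {δ c : ℝ} (H : Host F side n δ c) (b : Bool) (S : Finset U) (hS : cnt side b S < n) :
    ∃ z, side z = b ∧ z ∉ S := by
  by_contra hcon
  push Not at hcon
  have : cnt side b univ ≤ cnt side b S := by
    unfold cnt
    rw [Nat.cast_le]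
    refine card_le_card fun x hx => ?_
    have := (mem_filter.1 hx).2
    exact mem_filter.2 ⟨hcon x this, this⟩
  rw [cnt_univ H] at this
  linarith

/-- two spare vertices outside of a subdivision with a small footprint -/
theorem spare {U : Type} [Fintype U] {F : SimpleGraph U} {side : U → Bool} {n : ℕ}
    {δ c : ℝ} (H : Host F side n δ c) (hn : 1 ≤ n) (hδ : δ ≤ 1 / 100) (W : Finset U)
    (hW : ∀ s, cnt side s (W ∪ nbh F W) ≤ n / 2) :
    ∃ z u, side z = true ∧ side u = false ∧ (∀ w ∈ W, w ≠ z ∧ ¬ F.Adj z w) ∧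
      (∀ w ∈ W, w ≠ u ∧ ¬ F.Adj u w) ∧ ¬ F.Adj z u := by
  have hn' : (1 : ℝ) ≤ n := by exact_mod_cast hn
  have hnb : ∀ v : U, v ∉ W ∪ nbh F W → ∀ w ∈ W, w ≠ v ∧ ¬ F.Adj v w := by
    intro v hv w hw
    refine ⟨?_, ?_⟩
    · rintro rfl
      exact hv (mem_union_left _ hw)
    · intro h
      refine hv (mem_union_right _ ?_)
      unfold nbh
      exact mem_filter.2 ⟨mem_univ _, w, hw, h.symm⟩
  have e1 := hW true
  obtain ⟨z, hz, hzS⟩ := exists_off H true (W ∪ nbh F W) (by linarith)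
  have e2 := cnt_union_le side false (W ∪ nbh F W) (univ.filter fun w => F.Adj z w)
  have e3 := hW false
  have e4 := H.deg z false
  have e5 : δ * (n : ℝ) ≤ 1 / 100 * n := mul_le_mul_of_nonneg_right hδ (by linarith)
  obtain ⟨u, hu, huS⟩ := exists_off H false ((W ∪ nbh F W) ∪ univ.filter fun w => F.Adj z w)
    (by linarith)
  exact ⟨z, u, hz, hu, hnb z hzS, hnb u fun h => huS (mem_union_left _ h), fun h => huS
    (mem_union_right _ (mem_filter.2 ⟨mem_univ _, h⟩))⟩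

theorem hasPM_iff {V W : Type} (G : SimpleGraph V) (H : SimpleGraph W) :
    HasPivotMinor G H ↔ Pool.Agent.Helper35.PM.HasPM H G := Iff.rfl

theorem ePairs_eq_eR [Fintype V] (G : SimpleGraph V) (U W : Finset V) :
    (Pool.Agent.Helper35.PM.ePairs G U W : ℝ) = eR G.Adj U W := by
  unfold Pool.Agent.Helper35.PM.ePairs eR ind
  rw [← sum_product', sum_boole]

/-! ### the modules used as hypotheses -/

/-- `core` (PD-12c) for one multigraph -/
def CoreConcl {ι₀ ι₁ ε : Type} (a : ε → ι₀) (b : ε → ι₁) (q : ℕ) (δ c : ℝ) : Prop :=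
  ∀ (V : Type) [Fintype V] (F : SimpleGraph V) (side : V → Bool) (n : ℕ), 1 ≤ n →
    Host F side n δ c →
    ∃ (g : ℕ) (f₀ : ι₀ → V) (f₁ : ι₁ → V) (p : ε → List V) (W : Finset V),
      g < q ∧ g + 1 ≠ q ∧ SubD F a b q g f₀ f₁ p ∧ (∀ i, f₀ i ∈ W) ∧ (∀ i, f₁ i ∈ W) ∧
        (∀ e, ∀ v ∈ p e, v ∈ W) ∧ ∀ s, cnt side s (W ∪ nbh F W) ≤ n / 2

/-- `core` (PD-12c) -/
def CoreStmt : Prop :=
  ∀ (ι₀ ι₁ ε : Type) [Fintype ι₀] [Fintype ι₁] [Fintype ε] (a : ε → ι₀) (b : ε → ι₁),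
    (∀ i, (univ.filter fun e => a e = i).card ≤ 3) →
    (∀ i, (univ.filter fun e => b e = i).card ≤ 3) → ∀ q : ℕ, (q = 2 ∨ q = 3) →
    ∃ δ c : ℝ, 0 < c ∧ c ≤ δ ∧ δ ≤ 1 / 100 ∧ CoreConcl a b q δ c

/-- PD-13a -/
def TwoStmt : Prop :=
  ∀ (V ι₀ ι₁ ε : Type) [Fintype ι₀] [Fintype ι₁] [Fintype ε] (F : SimpleGraph V) (a : ε → ι₀)
    (b : ε → ι₁), (∀ e e', a e = a e' → b e = b e' → e = e') → ∀ (f₀ : ι₀ → V) (f₁ : ι₁ → V)
    (p : ε → List V), SubD F a b 2 0 f₀ f₁ p → HasPivotMinor F (bip a b)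

/-- PD-13b, residue 1 -/
def ThreeOneStmt : Prop :=
  ∀ (V ι₀ ι₁ ε : Type) [Fintype ι₀] [Fintype ι₁] [Fintype ε] (F G : SimpleGraph V) (a : ε → ι₀)
    (b : ε → ι₁), (∀ e e', a e = a e' → b e = b e' → e = e') →
    (∀ i, (univ.filter fun e => a e = i).card % 2 = 1) →
    (∀ i, (univ.filter fun e => b e = i).card % 2 = 1) → ∀ (f₀ : ι₀ → V) (f₁ : ι₁ → V)
    (p : ε → List V) (W : Finset V) (z : V), (∀ x ∈ W, ∀ y ∈ W, x ≠ y →
      (G.Adj x y ↔ ¬ F.Adj x y)) → z ∈ W → (∀ i, f₀ i ∈ W ∧ z ≠ f₀ i ∧ ¬ F.Adj z (f₀ i)) →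
    (∀ i, f₁ i ∈ W ∧ z ≠ f₁ i ∧ ¬ F.Adj z (f₁ i)) →
    (∀ e, ∀ v ∈ p e, v ∈ W ∧ z ≠ v ∧ ¬ F.Adj z v) →
    SubD F a b 3 1 f₀ f₁ p → HasPivotMinor G (bip a b)

/-- PD-13b, residue 0 -/
def ThreeZeroStmt : Prop :=
  ∀ (V ι₀ ι₁ ε : Type) [Fintype ι₀] [Fintype ι₁] [Fintype ε] (F G : SimpleGraph V) (a : ε → ι₀)
    (b : ε → ι₁), (∀ e e', a e = a e' → b e = b e' → e = e') → ∀ (f₀ : ι₀ → V) (f₁ : ι₁ → V)
    (p : ε → List V) (W : Finset V) (z : V), (∀ x ∈ W, ∀ y ∈ W, x ≠ y →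
      (G.Adj x y ↔ ¬ F.Adj x y)) → z ∈ W → (∀ i, f₀ i ∈ W ∧ z ≠ f₀ i ∧ ¬ F.Adj z (f₀ i)) →
    (∀ i, f₁ i ∈ W ∧ z ≠ f₁ i ∧ ¬ F.Adj z (f₁ i)) →
    (∀ e, ∀ v ∈ p e, v ∈ W ∧ z ≠ v ∧ ¬ F.Adj z v) →
    SubD F a b 3 0 f₀ f₁ p → HasPivotMinor G (bip a b)ᶜ

/-- PD-13c -/
def RestrictStmt : Prop :=
  ∀ (V ι₀ ι₁ ε κ₀ κ₁ η : Type) (F : SimpleGraph V) (a : ε → ι₀) (b : ε → ι₁)
    (q g : ℕ) (f₀ : ι₀ → V) (f₁ : ι₁ → V) (p : ε → List V), SubD F a b q g f₀ f₁ p →
    ∀ (a' : η → κ₀) (b' : η → κ₁) (s₀ : κ₀ → ι₀) (s₁ : κ₁ → ι₁) (s : η → ε),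
    Function.Injective s₀ → Function.Injective s₁ → Function.Injective s →
    (∀ e, a (s e) = s₀ (a' e)) → (∀ e, b (s e) = s₁ (b' e)) →
    SubD F a' b' q g (fun i => f₀ (s₀ i)) (fun i => f₁ (s₁ i)) (fun e => p (s e))

/-- PD-14a -/
def GammaOddStmt : Prop :=
  ∀ k : ℕ, ∃ (N₀ N₁ N : ℕ) (a : Fin N → Fin N₀) (b : Fin N → Fin N₁),
    (∀ e e', a e = a e' → b e = b e' → e = e') ∧
    (∀ i, (univ.filter fun e => a e = i).card % 2 = 1 ∧
      (univ.filter fun e => a e = i).card ≤ 3) ∧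
    (∀ i, (univ.filter fun e => b e = i).card % 2 = 1 ∧
      (univ.filter fun e => b e = i).card ≤ 3) ∧ Pool.Agent.Helper35.PM.HasPG (bip a b) k

/-- PD-14b -/
def GammaComplStmt : Prop :=
  ∀ k : ℕ, ∃ (N₀ N₁ N : ℕ) (a : Fin N → Fin N₀) (b : Fin N → Fin N₁),
    (∀ e e', a e = a e' → b e = b e' → e = e') ∧
    (∀ i, (univ.filter fun e => a e = i).card ≤ 3) ∧
    (∀ i, (univ.filter fun e => b e = i).card ≤ 3) ∧
    ∃ G' : SimpleGraph (Fin N₀ ⊕ Fin N₁), PivotReach (bip a b)ᶜ G' ∧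
      Pool.Agent.Helper35.PM.HasPG G' k

/-- PD-15a -/
def FlipStmt : Prop :=
  ∀ (V : Type) (G : SimpleGraph V) (side : V → Bool) (W : Finset V) (z u : V),
    side z = true → side u = false → G.Adj z u →
    (∀ w ∈ W, w ≠ z ∧ (G.Adj z w ↔ side w = false)) →
    (∀ w ∈ W, w ≠ u ∧ (G.Adj u w ↔ side w = true)) →
    ∃ G' : SimpleGraph V, PivotReach G G' ∧ ∀ x ∈ W, ∀ y ∈ W,
      (G'.Adj x y ↔ (if side x = side y then G.Adj x y else ¬ G.Adj x y))

/-! ### near-complete bipartite pair -/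

/-- the graph `G` with the pairs between `A` and its complement flipped -/
def flipG (G : SimpleGraph V) (A : Finset V) : SimpleGraph V where
  Adj x y := x ≠ y ∧ (if (x ∈ A ↔ y ∈ A) then G.Adj x y else ¬ G.Adj x y)
  symm := by
    constructor
    intro x y h
    refine ⟨h.1.symm, ?_⟩
    have h2 := h.2
    by_cases hc : (x ∈ A ↔ y ∈ A)
    · rw [if_pos hc] at h2
      rw [if_pos hc.symm]
      exact h2.symm
    · rw [if_neg hc] at h2
      rw [if_neg fun h' => hc h'.symm]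
      exact fun h' => h2 h'.symm
  loopless := ⟨fun x h => h.1 rfl⟩

theorem flipG_adj {G : SimpleGraph V} {A : Finset V} {x y : V} : (flipG G A).Adj x y ↔
    x ≠ y ∧ (if (x ∈ A ↔ y ∈ A) then G.Adj x y else ¬ G.Adj x y) := Iff.rfl

theorem comap_embed (G : SimpleGraph V) (A B : Finset V) :
    Nonempty ((G.comap (Subtype.val : Sub A B → V)) ↪g G) :=
  ⟨⟨Function.Embedding.subtype _, Iff.rfl⟩⟩

/-- type (0,0) -/
theorem type_zero (hflip : FlipStmt) (htwo : TwoStmt) {ι₀ ι₁ ε : Type} [Fintype ι₀] [Fintype ι₁]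
    [Fintype ε] (a : ε → ι₀) (b : ε → ι₁) (hab : ∀ e e', a e = a e' → b e = b e' → e = e')
    (δ c : ℝ) (hδ : δ ≤ 1 / 100) (hcore : CoreConcl a b 2 δ c) (G : SimpleGraph V)
    (A B : Finset V) (hAB : Disjoint A B) (hc : A.card = B.card) (hA1 : 1 ≤ A.card)
    (h1 : ∀ x ∈ A, ((B.filter fun y => ¬ G.Adj x y).card : ℝ) ≤ δ * B.card)
    (h2 : ∀ x ∈ B, ((A.filter fun y => ¬ G.Adj x y).card : ℝ) ≤ δ * A.card)
    (h3 : ∀ x ∈ A, ((A.filter fun y => G.Adj x y).card : ℝ) ≤ δ * A.card)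
    (h4 : ∀ x ∈ B, ((B.filter fun y => G.Adj x y).card : ℝ) ≤ δ * B.card)
    (hd : ∀ X ⊆ A, ∀ Y ⊆ B, c * A.card ≤ X.card → c * A.card ≤ Y.card →
      ∃ x ∈ X, ∃ y ∈ Y, ¬ G.Adj x y) : HasPivotMinor G (bip a b) := by
  set F : SimpleGraph V := flipG G A with hF
  have hBA : ∀ x ∈ B, x ∉ A := fun x hx hx' => disjoint_left.1 hAB hx' hx
  have hn : (1 : ℝ) ≤ A.card := by exact_mod_cast hA1
  have host := host_of F A B hAB hc δ c (by
    intro x hx
    rcases mem_union.1 hx with hx | hx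
    · refine le_trans ?_ (h3 x hx)
      rw [Nat.cast_le]
      refine card_le_card fun y hy => ?_
      obtain ⟨hy, hy'⟩ := mem_filter.1 hy
      have := (flipG_adj.1 hy').2
      rw [if_pos (iff_of_true hx hy)] at this
      exact mem_filter.2 ⟨hy, this⟩
    · refine le_trans ?_ (h2 x hx)
      rw [Nat.cast_le]
      refine card_le_card fun y hy => ?_
      obtain ⟨hy, hy'⟩ := mem_filter.1 hy
      have := (flipG_adj.1 hy').2
      rw [if_neg (fun h => hBA x hx (h.2 hy))] at this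
      exact mem_filter.2 ⟨hy, this⟩) (by
    intro x hx
    rcases mem_union.1 hx with hx | hx
    · rw [hc]
      refine le_trans ?_ (h1 x hx)
      rw [Nat.cast_le]
      refine card_le_card fun y hy => ?_
      obtain ⟨hy, hy'⟩ := mem_filter.1 hy
      have := (flipG_adj.1 hy').2
      rw [if_neg (fun h => hBA y hy (h.1 hx))] at this
      exact mem_filter.2 ⟨hy, this⟩
    · rw [hc]
      refine le_trans ?_ (h4 x hx)
      rw [Nat.cast_le]
      refine card_le_card fun y hy => ?_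
      obtain ⟨hy, hy'⟩ := mem_filter.1 hy
      have := (flipG_adj.1 hy').2
      rw [if_pos (iff_of_false (hBA x hx) (hBA y hy))] at this
      exact mem_filter.2 ⟨hy, this⟩) (by
    intro X hX Y hY hXc hYc
    obtain ⟨x, hx, y, hy, hxy⟩ := hd X hX Y hY hXc hYc
    refine ⟨x, hx, y, hy, flipG_adj.2 ⟨?_, ?_⟩⟩
    · rintro rfl
      exact hBA _ (hY hy) (hX hx)
    · rw [if_neg (fun h => hBA y (hY hy) (h.1 (hX hx)))]
      exact hxy)
  obtain ⟨g, f₀, f₁, p, W, hg, hg', hsub, hW0, hW1, hWp, hfoot⟩ := hcore (Sub A B) _ _ _ hA1 host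
  have hg0 : g = 0 := by omega
  subst hg0
  set F1 : SimpleGraph (Sub A B) := F.comap (Subtype.val : Sub A B → V) with hF1
  set G1 : SimpleGraph (Sub A B) := G.comap (Subtype.val : Sub A B → V) with hG1
  -- the two spare vertices
  obtain ⟨z, u, hz, hu, hzW, huW, hzuF⟩ := spare host hA1 hδ W hfoot
  have hadjF : ∀ x y : Sub A B, F1.Adj x y ↔
      x ≠ y ∧ (if sd A B x = sd A B y then G1.Adj x y else ¬ G1.Adj x y) := by
    intro x y
    have e1 : (sd A B x = sd A B y) ↔ (x.1 ∈ A ↔ y.1 ∈ A) := by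
      unfold sd
      rw [decide_eq_decide]
    have e2 : F1.Adj x y ↔ x.1 ≠ y.1 ∧ (if (x.1 ∈ A ↔ y.1 ∈ A) then G.Adj x.1 y.1 else
      ¬ G.Adj x.1 y.1) := Iff.rfl
    rw [e2]
    have e3 : (x.1 ≠ y.1) ↔ x ≠ y := by
      rw [ne_eq, ne_eq, Subtype.ext_iff]
    rw [e3]
    refine and_congr_right fun _ => ?_
    by_cases hq : (x.1 ∈ A ↔ y.1 ∈ A)
    · rw [if_pos hq, if_pos (e1.2 hq)]
      exact Iff.rfl
    · rw [if_neg hq, if_neg (fun h => hq (e1.1 h))]
      exact Iff.rfl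
  have hzu : G1.Adj z u := by
    by_contra hno
    refine hzuF ((hadjF z u).2 ⟨?_, ?_⟩)
    · rintro rfl
      rw [hz] at hu
      exact absurd hu (by simp)
    · rw [if_neg (by rw [hz, hu]; simp)]
      exact hno
  obtain ⟨G', hG', hG'W⟩ := hflip (Sub A B) G1 (sd A B) W z u hz hu hzu (by
    intro w hw
    obtain ⟨h5, h6⟩ := hzW w hw
    refine ⟨h5, ?_⟩
    rw [hadjF, not_and] at h6
    have h7 := h6 h5.symm
    rw [hz] at h7
    cases hw' : sd A B w
    · rw [hw', if_neg (by simp), not_not] at h7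
      simpa using h7
    · rw [hw', if_pos rfl] at h7
      simpa using h7) (by
    intro w hw
    obtain ⟨h5, h6⟩ := huW w hw
    refine ⟨h5, ?_⟩
    rw [hadjF, not_and] at h6
    have h7 := h6 h5.symm
    rw [hu] at h7
    cases hw' : sd A B w
    · rw [hw', if_pos rfl] at h7
      simpa using h7
    · rw [hw', if_neg (by simp), not_not] at h7
      simpa using h7)
  have hsub' := subD_transfer (F' := G') hsub W hW0 hW1 hWp (by
    intro x hx y hy
    rw [hG'W x hx y hy, hadjF]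
    by_cases hxy : x = y
    · subst hxy
      simp
    · simp [hxy])
  obtain ⟨emb⟩ := comap_embed G A B
  exact HasPivotMinor.of_embedding emb (HasPivotMinor.of_reach hG'
    (htwo _ _ _ _ G' a b hab f₀ f₁ p hsub'))

/-- type (1,1): a subdivision in the complement, and a spare vertex -/
theorem type_one {ι₀ ι₁ ε : Type} (a : ε → ι₀) (b : ε → ι₁) (δ c : ℝ) (hδ : δ ≤ 1 / 100)
    (hcore : CoreConcl a b 3 δ c) (G : SimpleGraph V)
    (A B : Finset V) (hAB : Disjoint A B) (hc : A.card = B.card) (hA1 : 1 ≤ A.card)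
    (h1 : ∀ x ∈ A, ((B.filter fun y => ¬ G.Adj x y).card : ℝ) ≤ δ * B.card)
    (h2 : ∀ x ∈ B, ((A.filter fun y => ¬ G.Adj x y).card : ℝ) ≤ δ * A.card)
    (h3 : ∀ x ∈ A, ((A.filter fun y => ¬ G.Adj x y).card : ℝ) ≤ δ * A.card)
    (h4 : ∀ x ∈ B, ((B.filter fun y => ¬ G.Adj x y).card : ℝ) ≤ δ * B.card)
    (hd : ∀ X ⊆ A, ∀ Y ⊆ B, c * A.card ≤ X.card → c * A.card ≤ Y.card →
      ∃ x ∈ X, ∃ y ∈ Y, ¬ G.Adj x y) :
    ∃ (g : ℕ) (f₀ : ι₀ → Sub A B) (f₁ : ι₁ → Sub A B) (p : ε → List (Sub A B))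
      (W : Finset (Sub A B)) (z : Sub A B), (g = 0 ∨ g = 1) ∧
      SubD (G.comap (Subtype.val : Sub A B → V))ᶜ a b 3 g f₀ f₁ p ∧ z ∈ W ∧
      (∀ i, f₀ i ∈ W ∧ z ≠ f₀ i ∧ ¬ (G.comap (Subtype.val : Sub A B → V))ᶜ.Adj z (f₀ i)) ∧
      (∀ i, f₁ i ∈ W ∧ z ≠ f₁ i ∧ ¬ (G.comap (Subtype.val : Sub A B → V))ᶜ.Adj z (f₁ i)) ∧
      ∀ e, ∀ v ∈ p e, v ∈ W ∧ z ≠ v ∧ ¬ (G.comap (Subtype.val : Sub A B → V))ᶜ.Adj z v := by
  have hBA : ∀ x ∈ B, x ∉ A := fun x hx hx' => disjoint_left.1 hAB hx' hx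
  have hn : (1 : ℝ) ≤ A.card := by exact_mod_cast hA1
  have hmono : ∀ F' : SimpleGraph V, (∀ x y, F'.Adj x y → ¬ G.Adj x y) →
      ∀ (x : V) (C : Finset V), ((C.filter fun y => F'.Adj x y).card : ℝ) ≤
      ((C.filter fun y => ¬ G.Adj x y).card : ℝ) := by
    intro F' hF' x C
    rw [Nat.cast_le]
    refine card_le_card fun y hy => ?_
    obtain ⟨hy, hy'⟩ := mem_filter.1 hy
    exact mem_filter.2 ⟨hy, hF' x y hy'⟩
  have hGc : ∀ x y, Gᶜ.Adj x y → ¬ G.Adj x y := fun x y h => ((SimpleGraph.compl_adj _ _ _).1 h).2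
  have host := host_of Gᶜ A B hAB hc δ c (by
    intro x hx
    refine le_trans (hmono _ hGc x A) ?_
    rcases mem_union.1 hx with hx | hx
    · exact h3 x hx
    · exact h2 x hx) (by
    intro x hx
    refine le_trans (hmono _ hGc x B) ?_
    rw [hc]
    rcases mem_union.1 hx with hx | hx
    · exact h1 x hx
    · exact h4 x hx) (by
    intro X hX Y hY hXc hYc
    obtain ⟨x, hx, y, hy, hxy⟩ := hd X hX Y hY hXc hYc
    refine ⟨x, hx, y, hy, ?_⟩
    rw [SimpleGraph.compl_adj]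
    refine ⟨?_, hxy⟩
    rintro rfl
    exact hBA _ (hY hy) (hX hx))
  have hcomap : Gᶜ.comap (Subtype.val : Sub A B → V) =
      (G.comap (Subtype.val : Sub A B → V))ᶜ := by
    ext x y
    rw [SimpleGraph.comap_adj, SimpleGraph.compl_adj, SimpleGraph.compl_adj,
      SimpleGraph.comap_adj, ne_eq, ne_eq, Subtype.ext_iff]
  rw [hcomap] at host
  obtain ⟨g, f₀, f₁, p, W, hg, hg', hsub, hW0, hW1, hWp, hfoot⟩ := hcore (Sub A B) _ _ _ hA1 host
  set F1 : SimpleGraph (Sub A B) := (G.comap (Subtype.val : Sub A B → V))ᶜ with hF1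
  obtain ⟨z, -, -, -, hzW, -, -⟩ := spare host hA1 hδ W hfoot
  have hnb : ∀ w ∈ W, w ∈ insert z W ∧ z ≠ w ∧ ¬ F1.Adj z w := by
    intro w hw
    obtain ⟨h5, h6⟩ := hzW w hw
    exact ⟨mem_insert_of_mem hw, h5.symm, h6⟩
  exact ⟨g, f₀, f₁, p, insert z W, z, by omega, hsub, mem_insert_self _ _,
    fun i => hnb _ (hW0 i), fun i => hnb _ (hW1 i), fun e v hv => hnb v (hWp e v hv)⟩

/-- the host condition for a smaller `c` -/
theorem CoreConcl.mono {ι₀ ι₁ ε : Type} {a : ε → ι₀} {b : ε → ι₁} {q : ℕ} {δ δ' c c' : ℝ}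
    (h : CoreConcl a b q δ c) (hδ : δ' ≤ δ) (hc : c' ≤ c) : CoreConcl a b q δ' c' := by
  intro V _ F side n hn host
  have hn0 : (0 : ℝ) ≤ n := Nat.cast_nonneg n
  exact h V F side n hn ⟨host.card, fun v b => (host.deg v b).trans
    (mul_le_mul_of_nonneg_right hδ hn0), fun X Y hX hY hXc hYc => host.dense X Y hX hY
      ((mul_le_mul_of_nonneg_right hc hn0).trans hXc)
      ((mul_le_mul_of_nonneg_right hc hn0).trans hYc)⟩

theorem card_filter_map {ε η ι κ : Type} [Fintype ε] [Fintype η] (a : ε → ι) (a' : η → κ) :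
    (∀ i, (univ.filter fun e : ε ⊕ η => Sum.map a a' e = Sum.inl i).card =
      (univ.filter fun e => a e = i).card) ∧
    ∀ j, (univ.filter fun e : ε ⊕ η => Sum.map a a' e = Sum.inr j).card =
      (univ.filter fun e => a' e = j).card := by
  constructor
  · intro i
    rw [← card_map (s := univ.filter fun e => a e = i) (Function.Embedding.inl : ε ↪ ε ⊕ η)]
    congr 1
    ext x
    rcases x with x | x <;> simp
  · intro j
    rw [← card_map (s := univ.filter fun e => a' e = j) (Function.Embedding.inr : η ↪ ε ⊕ η)]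
    congr 1
    ext x
    rcases x with x | x <;> simp

open Pool.Agent.Helper35.PM in
theorem denseQ_of (hcore : CoreStmt) (htwo : TwoStmt) (hone : ThreeOneStmt)
    (hzero : ThreeZeroStmt) (hres : RestrictStmt) (hodd : GammaOddStmt) (hcompl : GammaComplStmt)
    (hflip : FlipStmt) {W : Type} [Fintype W] (H : SimpleGraph W) (hH : H.Colorable 2) :
    DenseQ H := by
  obtain ⟨k, -, hPG⟩ := hasPM_of_hasPG H hH
  obtain ⟨N₀, N₁, N, a, b, hab, ha, hb, hg⟩ := hodd k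
  obtain ⟨N₀', N₁', N', a', b', hab', ha', hb', G', hG', hg'⟩ := hcompl k
  have final1 : ∀ (V : Type) (G : SimpleGraph V), HasPivotMinor G (bip a b) → HasPM H G := by
    intro V G h
    exact HasPivotMinor.trans h (hPG _ _ hg)
  have final2 : ∀ (V : Type) (G : SimpleGraph V), HasPivotMinor G (bip a' b')ᶜ → HasPM H G := by
    intro V G h
    exact HasPivotMinor.trans h (HasPivotMinor.of_reach hG' (hPG _ _ hg'))
  obtain ⟨d, hvc⟩ := exists_vc' W H hH
  obtain ⟨δ₂, c₂, hc₂, hcδ₂, hδ₂, core2⟩ := hcore _ _ _ a b (fun i => by convert (ha i).2)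
    (fun i => by convert (hb i).2) 2 (Or.inl rfl)
  obtain ⟨δ₃, c₃, hc₃, hcδ₃, hδ₃, core3⟩ := hcore _ _ _ (Sum.map a a') (Sum.map b b') (by
    rintro (i | i)
    · refine le_trans (le_of_eq ?_) (ha i).2
      convert (card_filter_map a a').1 i
    · refine le_trans (le_of_eq ?_) (ha' i)
      convert (card_filter_map a a').2 i) (by
    rintro (i | i)
    · refine le_trans (le_of_eq ?_) (hb i).2
      convert (card_filter_map b b').1 i
    · refine le_trans (le_of_eq ?_) (hb' i)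
      convert (card_filter_map b b').2 i) 3 (Or.inr rfl)
  set δ := min δ₂ δ₃ with hδ
  set c := min c₂ c₃ with hc
  have hc0 : 0 < c := lt_min hc₂ hc₃
  have hδ0 : 0 < δ := lt_min (hc₂.trans_le hcδ₂) (hc₃.trans_le hcδ₃)
  have hδ1 : δ ≤ 1 / 100 := (min_le_left _ _).trans hδ₂
  replace core2 : CoreConcl a b 2 δ c := core2.mono (min_le_left _ _) (min_le_left _ _)
  replace core3 : CoreConcl (Sum.map a a') (Sum.map b b') 3 δ c :=
    core3.mono (min_le_right _ _) (min_le_right _ _)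
  intro η hη
  obtain ⟨c', hc'0, hc'1, hpair⟩ := exists_hom_pair d η δ hη hδ0
  have hcc : 0 < min c 1 * c' := mul_pos (lt_min hc0 one_pos) hc'0
  refine ⟨min c 1 * c', hcc, fun V _ G hG hE => ?_⟩
  rcases Nat.eq_zero_or_pos (Fintype.card V) with hV | hV
  · refine ⟨∅, ∅, ?_, ?_, by simp⟩ <;> simp [hV]
  have hVr : (1 : ℝ) ≤ Fintype.card V := by exact_mod_cast hV
  have hmc : min c 1 * c' ≤ c' := by
    have := mul_le_mul_of_nonneg_right (min_le_right c 1) hc'0.le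
    linarith
  by_cases hsmall : c' * Fintype.card V < 1
  · -- one edge
    have h1 : (0 : ℝ) < ePairs G univ univ := lt_of_lt_of_le (by positivity) hE
    have h2 : 0 < ePairs G univ univ := by exact_mod_cast h1
    unfold ePairs at h2
    obtain ⟨q, hq⟩ := card_pos.1 h2
    have hq' := (mem_filter.1 hq).2
    have h3 : min c 1 * c' * Fintype.card V ≤ 1 := by
      have := mul_le_mul_of_nonneg_right hmc (by linarith : (0 : ℝ) ≤ Fintype.card V)
      linarith
    refine ⟨{q.1}, {q.2}, ?_, ?_, ?_⟩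
    · simpa using h3
    · simpa using h3
    · intro x hx y hy
      rw [mem_singleton] at hx hy
      subst hx
      subst hy
      exact hq'
  rw [not_lt] at hsmall
  have hSh : ¬ Sh G d := by
    rintro ⟨X, hX, hX'⟩
    exact hG (hvc V G X hX hX')
  obtain ⟨A, B, -, -, hAB, hABc, hAc, h1, h2, h34⟩ := hpair V G hSh univ univ (Fintype.card V)
    hsmall (by simp) (by simp) (by
      rw [← ePairs_eq_eR, card_univ]
      calc η * ((Fintype.card V : ℝ) * Fintype.card V) = η * (Fintype.card V : ℝ) ^ 2 := by ring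
        _ ≤ _ := hE)
  have hA1r : (1 : ℝ) ≤ A.card := hsmall.trans hAc
  have hA1 : 1 ≤ A.card := by exact_mod_cast hA1r
  by_contra hcon
  push Not at hcon
  have hd : ∀ X ⊆ A, ∀ Y ⊆ B, c * A.card ≤ X.card → c * A.card ≤ Y.card →
      ∃ x ∈ X, ∃ y ∈ Y, ¬ G.Adj x y := by
    intro X _ Y _ hXc hYc
    have h5 : min c 1 * c' * Fintype.card V ≤ c * A.card := by
      calc min c 1 * c' * Fintype.card V = min c 1 * (c' * Fintype.card V) := by ring
        _ ≤ c * A.card := mul_le_mul (min_le_left _ _) hAc (by positivity) hc0.le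
    exact hcon X Y (h5.trans hXc) (h5.trans hYc)
  rcases h34 with ⟨h3, h4⟩ | ⟨h3, h4⟩
  · exact hG (final1 V G (type_zero hflip htwo a b hab δ c hδ1 core2 G A B hAB hABc hA1 h1 h2 h3
      h4 hd))
  · obtain ⟨g, f₀, f₁, p, W', z, hg01, hsub, hzW, hz0, hz1, hzp⟩ := type_one (Sum.map a a')
      (Sum.map b b') δ c hδ1 core3 G A B hAB hABc hA1 h1 h2 h3 h4 hd
    obtain ⟨emb⟩ := comap_embed G A B
    have hGF : ∀ x ∈ W', ∀ y ∈ W', x ≠ y → ((G.comap (Subtype.val : Sub A B → V)).Adj x y ↔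
        ¬ (G.comap (Subtype.val : Sub A B → V))ᶜ.Adj x y) := by
      intro x _ y _ hxy
      rw [SimpleGraph.compl_adj, not_and, not_not]
      exact ⟨fun h _ => h, fun h => h hxy⟩
    rcases hg01 with rfl | rfl
    · have hr := hres _ _ _ _ _ _ _ _ _ _ _ _ _ _ _ hsub a' b' Sum.inr Sum.inr Sum.inr
        Sum.inr_injective Sum.inr_injective Sum.inr_injective (fun _ => rfl) (fun _ => rfl)
      exact hG (final2 V G (HasPivotMinor.of_embedding emb (hzero _ _ _ _ _ _ a' b' hab' _ _ _ W' z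
        hGF hzW (fun i => hz0 _) (fun i => hz1 _) (fun e => hzp _) hr)))
    · have hr := hres _ _ _ _ _ _ _ _ _ _ _ _ _ _ _ hsub a b Sum.inl Sum.inl Sum.inl
        Sum.inl_injective Sum.inl_injective Sum.inl_injective (fun _ => rfl) (fun _ => rfl)
      exact hG (final1 V G (HasPivotMinor.of_embedding emb (hone _ _ _ _ _ _ a b hab
        (fun i => by convert (ha i).1) (fun i => by convert (hb i).1) _ _ _ W' z
        hGF hzW (fun i => hz0 _) (fun i => hz1 _) (fun e => hzp _) hr)))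

end Pool.Agent.Helper64.PD
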