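import Pool.Agent.Helper64.PD.Dense
import Pool.Agent.Helper32.PD.Core
import Pool.Agent.Helper58.PD.Two
import Pool.Agent.Helper40.PD.Alg3
import Pool.Agent.Helper8.PD.Conn
import Pool.Agent.Helper76.PD.GammaOdd
import Pool.Agent.Helper76.PD.GammaCompl
import Pool.Agent.Helper29.PD.Flip

/-!
# The dense case of the linear bound (PD-15b)
-/

set_option autoImplicit false

namespace Pool.Agent.Helper32.PD

open Pool.Agent.Helper35.PM in
/-- the dense case: graphs without the bipartite pivot-minor `H` and with quadratically many edges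
contain complete bipartite subgraphs with both sides of linear size -/
theorem denseQ {W : Type} [Fintype W] (H : SimpleGraph W) (hH : H.Colorable 2) : DenseQ H :=
  Pool.Agent.Helper64.PD.denseQ_of
    (fun _ _ _ _ _ _ a b ha hb q hq => core a b ha hb q hq)
    (fun _ _ _ _ _ _ _ F a b hab f₀ f₁ p h => pivotMinor_of_subD_two F a b hab f₀ f₁ p h)
    (fun _ _ _ _ _ _ _ F G a b hab h0 h1 f₀ f₁ p W z hGF hz h₀ h₁ hp h =>
      pivotMinor_of_subD_three_one F G a b hab h0 h1 f₀ f₁ p W z hGF hz h₀ h₁ hp h)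
    (fun _ _ _ _ _ _ _ F G a b hab f₀ f₁ p W z hGF hz h₀ h₁ hp h =>
      pivotMinor_of_subD_three_zero F G a b hab f₀ f₁ p W z hGF hz h₀ h₁ hp h)
    (fun _ _ _ _ _ _ _ _ _ _ _ _ _ _ _ h a' b' s₀ s₁ s h₀ h₁ hs ha hb =>
      SubD.restrict h a' b' s₀ s₁ s h₀ h₁ hs ha hb)
    exists_gamma_odd exists_gamma_compl
    (fun _ G side W z u hz hu hzu hzW huW => exists_flip G side W z u hz hu hzu hzW huW) H hH

end Pool.Agent.Helper32.PD
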